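import Pool.Agent.H49.WinB

namespace Pool.Agent.Results.MP_f42bc2_nt.NotOpen

open NumberField Pool.Agent.H49.Win

theorem result : ∃ (K : Type) (_ : Field K) (_ : NumberField K), 1 ≤ Units.rank K ∧
    ∃ p : Ideal (𝓞 K), p.IsPrime ∧ p ≠ ⊥ ∧ (Ideal.absNorm p : ℝ) ∈ window p ∧
      (∀ c : ℝ, c < Ideal.absNorm p → c ∉ window p) ∧ ¬ IsOpen (window p) := by
  obtain ⟨K, _, _, h1, p, h2, h3, h4, h5, h6⟩ := main
  refine ⟨K, inferInstance, inferInstance, h1, p, h2, h3, by rw [h4]; exact_mod_cast h5,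
    fun c hc => h6 c (by rw [h4] at hc; exact_mod_cast hc), fun ho => ?_⟩
  obtain ⟨d, hd, hb⟩ := Metric.isOpen_iff.mp ho 2 h5
  refine h6 (2 - d / 2) (by linarith) (hb ?_)
  rw [Metric.mem_ball, Real.dist_eq, abs_lt]
  constructor <;> linarith

end Pool.Agent.Results.MP_f42bc2_nt.NotOpen
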